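import Pool.Agent.RM.Los

/-!
# `Σ¹₁-AC₀` does not imply `ABW₀` over `RCA₀`

The definitions are in `Pool.Agent.RM.Defs` and `Pool.Agent.RM.HypDefs`.
-/

namespace Pool.Agent.Results.MP_3f22c5_lc.NotImplied

open Pool.Agent.RM

/-- There is a model `(M, S)` of `RCA₀` which satisfies `Σ¹₁-AC₀`, hence finite-`Σ¹₁-AC₀`, but
does not satisfy `ABW₀`. -/
theorem result : ∃ (M : Type) (_ : CommSemiring M) (_ : LinearOrder M)
    (_ : IsStrictOrderedRing M) (_ : CanonicallyOrderedAdd M) (S : Set (Set M)),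
    RCA0 M S ∧ SigmaAC S ∧ FinAC S ∧ ¬ ABW S :=
  ⟨UM, inferInstance, inferInstance, inferInstance, inferInstance, defS UM, good_UM.rca0,
    sigmaAC good_UM, (have := good_UM.rca0; finAC_of_sigmaAC (sigmaAC good_UM)),
    not_abw good_UM⟩

end Pool.Agent.Results.MP_3f22c5_lc.NotImplied
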